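import Pool.Agent.Work.MP_b5407d_lbm.Interface

/-! `lbm_blocks` GF: facet integrals of a `Gon` are edge integrals. -/

set_option autoImplicit false

open MeasureTheory Set Filter Topology

namespace Pool.LBM

namespace GF

theorem per_eq {α : Type} {f : ℕ → α} {n : ℕ} (h : ∀ k, f (k + n) = f k) {a b : ℕ}
    (hab : a % n = b % n) : f a = f b := by
  have hp : Function.Periodic f n := h
  rw [← hp.map_mod_nat a, ← hp.map_mod_nat b, hab]

theorem dt_add (a x y : R2) : dt a (x + y) = dt a x + dt a y := by
  simp only [dt, Prod.fst_add, Prod.snd_add]; ring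

theorem dt_smul (a x : R2) (c : ℝ) : dt a (c • x) = c * dt a x := by
  simp only [dt, Prod.smul_fst, Prod.smul_snd, smul_eq_mul]; ring

theorem dt_rt (a : R2) : dt a (rt a) = 0 := by
  simp only [dt, rt]; ring

/-- decomposition in the frame `a, rt a` -/
theorem frame (a u : R2) (h1 : dt a a = 1) : dt a u • a + dt (rt a) u • rt a = u := by
  obtain ⟨a1, a2⟩ := a
  obtain ⟨u1, u2⟩ := u
  simp only [dt] at h1
  simp only [dt, rt, Prod.smul_mk, smul_eq_mul, Prod.mk_add_mk]
  refine Prod.ext ?_ ?_
  · simp only
    linear_combination u1 * h1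
  · simp only
    linear_combination u2 * h1

theorem main (hGN : Stmt_GN) (n : ℕ) (θ P : ℕ → R2) (ℓ : ℕ → ℝ) (f : R2 → ℝ) (h : Gon n θ P ℓ)
    (k : Fin n) : FI (gth n θ) f (gh n θ P) k = EI f θ P ℓ k := by
  obtain ⟨-, -, hst⟩ := hGN n θ P ℓ h
  have hn := h.three
  have hn0 : 0 < n := by omega
  have weak : ∀ i j, dt (θ i) (P j) ≤ dt (θ i) (P i) := by
    intro i j
    by_cases h1 : j % n = i % n
    · rw [per_eq h.perP h1]
    · by_cases h2 : j % n = (i + 1) % n
      · rw [per_eq h.perP h2, h.edge i, dt_add, dt_smul, dt_rt, mul_zero, add_zero]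
      · exact (hst i j h1 h2).le
  obtain ⟨k, hk⟩ := k
  simp only
  set c : ℝ := dt (rt (θ k)) (P k) with hc
  have hbase : dt (θ k) (P k) • θ k + c • rt (θ k) = P k := frame (θ k) (P k) (h.unit k)
  have hpt : ∀ r : ℝ, gh n θ P ⟨k, hk⟩ • gth n θ ⟨k, hk⟩ + (c + r) • rt (gth n θ ⟨k, hk⟩) =
      P k + r • rt (θ k) := by
    intro r
    simp only [gh, gth]
    rw [add_smul, ← add_assoc, hbase]
  have hl := h.pos k
  -- the line meets the polygon in the edge
  have hset : {s : ℝ | gh n θ P ⟨k, hk⟩ • gth n θ ⟨k, hk⟩ + s • rt (gth n θ ⟨k, hk⟩) ∈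
      HP (gth n θ) (gh n θ P)} = Icc c (c + ℓ k) := by
    ext s
    obtain ⟨r, rfl⟩ : ∃ r, s = c + r := ⟨s - c, by ring⟩
    rw [Set.mem_ofPred_eq]
    rw [hpt]
    have hmem : (P k + r • rt (θ k) ∈ HP (gth n θ) (gh n θ P)) ↔
        ∀ j, dt (θ j) (P k + r • rt (θ k)) ≤ dt (θ j) (P j) := by
      constructor
      · intro hx j
        have := hx ⟨j % n, Nat.mod_lt _ hn0⟩
        simp only [gth, gh] at this
        rwa [per_eq h.perθ (Nat.mod_mod j n), per_eq h.perP (Nat.mod_mod j n)] at this
      · intro hx j
        exact hx j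
    rw [hmem]
    constructor
    · intro hx
      constructor
      · -- the constraint `k + n - 1`
        obtain ⟨m, hm⟩ : ∃ m, m + 1 = k + n := ⟨k + n - 1, by omega⟩
        have h1 := hx m
        have hPm : dt (θ m) (P m) = dt (θ m) (P k) := by
          have e := h.edge m
          rw [hm, h.perP k] at e
          rw [e, dt_add, dt_smul, dt_rt, mul_zero, add_zero]
        have h2 : dt (θ m) (P (k + 1)) < dt (θ m) (P m) := by
          apply hst
          · intro hh
            have : (k + 1) % n = (m + 2) % n := by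
              rw [show m + 2 = k + 1 + n by omega, Nat.add_mod_right]
            rw [this] at hh
            have h3 : (m + 2) % n ≠ m % n := by
              intro h4
              have h5 : n ∣ (m + 2) - m := (Nat.modEq_iff_dvd' (by omega)).1 h4.symm
              have h6 := Nat.le_of_dvd (by omega) h5
              omega
            exact h3 hh
          · rw [hm, Nat.add_mod_right]
            intro h4
            have h5 : n ∣ (k + 1) - k := (Nat.modEq_iff_dvd' (by omega)).1 h4.symm
            have h6 := Nat.le_of_dvd (by omega) h5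
            omega
        rw [h.edge k, dt_add, dt_smul, hPm] at h2
        rw [dt_add, dt_smul, hPm] at h1
        have h7 : dt (θ m) (rt (θ k)) < 0 := by
          by_contra hcon
          rw [not_lt] at hcon
          nlinarith [mul_nonneg hl.le hcon]
        have h8 : 0 ≤ r := by
          by_contra hcon
          rw [not_le] at hcon
          nlinarith [mul_pos_of_neg_of_neg hcon h7]
        linarith
      · -- the constraint `k + 1`
        have h1 := hx (k + 1)
        have h2 : dt (θ (k + 1)) (P k) < dt (θ (k + 1)) (P (k + 1)) := by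
          apply hst
          · intro h4
            have h5 : n ∣ (k + 1) - k := (Nat.modEq_iff_dvd' (by omega)).1 h4
            have h6 := Nat.le_of_dvd (by omega) h5
            omega
          · intro h4
            have h5 : n ∣ (k + 1 + 1) - k := (Nat.modEq_iff_dvd' (by omega)).1 h4
            have h6 := Nat.le_of_dvd (by omega) h5
            omega
        rw [h.edge k, dt_add, dt_smul] at h2
        rw [h.edge k, dt_add, dt_add, dt_smul, dt_smul] at h1
        have h7 : 0 < dt (θ (k + 1)) (rt (θ k)) := by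
          by_contra hcon
          rw [not_lt] at hcon
          nlinarith [mul_nonneg hl.le (neg_nonneg.2 hcon)]
        have h8 : r ≤ ℓ k := by
          by_contra hcon
          rw [not_le] at hcon
          nlinarith [mul_pos (sub_pos.2 hcon) h7]
        linarith
    · rintro ⟨h1, h2⟩ j
      have hr0 : 0 ≤ r := by linarith
      have hrl : r ≤ ℓ k := by linarith
      have h3 := weak j k
      have h4 := weak j (k + 1)
      rw [h.edge k, dt_add, dt_smul] at h4
      rw [dt_add, dt_smul]
      by_cases hs : 0 ≤ dt (θ j) (rt (θ k))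
      · nlinarith [mul_nonneg (sub_nonneg.2 hrl) hs]
      · rw [not_le] at hs
        nlinarith [mul_nonneg hr0 (neg_pos.2 hs).le]
  unfold FI EI
  rw [hset, integral_Icc_eq_integral_Ioc,
    ← intervalIntegral.integral_of_le (by linarith : c ≤ c + ℓ k)]
  have hsub : (∫ s in (0 : ℝ)..(ℓ k), f (P k + s • rt (θ k))) =
      ∫ s in (0 : ℝ)..(ℓ k), (fun t : ℝ => f (gh n θ P ⟨k, hk⟩ • gth n θ ⟨k, hk⟩ +
        t • rt (gth n θ ⟨k, hk⟩))) (c + s) := by
    refine intervalIntegral.integral_congr fun s _ => ?_
    simp only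
    rw [hpt]
  rw [hsub]
  have hcomp := intervalIntegral.integral_comp_add_left (a := 0) (b := ℓ k)
    (fun t : ℝ => f (gh n θ P ⟨k, hk⟩ • gth n θ ⟨k, hk⟩ + t • rt (gth n θ ⟨k, hk⟩))) c
  rw [add_zero] at hcomp
  exact hcomp.symm

end GF

theorem blk_GF (hGN : Stmt_GN) : Stmt_GF :=
  fun n θ P ℓ f h k => GF.main hGN n θ P ℓ f h k

end Pool.LBM
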