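import Pool.Agent.Work.MP_b5407d_lbm.Interface

/-! `lbm_blocks` GT: a small perturbation of a `Gon` is a `Gon`. -/

set_option autoImplicit false

open MeasureTheory Set Filter Topology

namespace Pool.LBM

namespace GT

theorem per_eq {α : Type} {f : ℕ → α} {n : ℕ} (h : ∀ k, f (k + n) = f k) {a b : ℕ}
    (hab : a % n = b % n) : f a = f b := by
  have hp : Function.Periodic f n := h
  rw [← hp.map_mod_nat a, ← hp.map_mod_nat b, hab]

/-- a vector orthogonal to the unit vector `a` is a multiple of `rt a` -/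
theorem orth (a u : R2) (h1 : dt a a = 1) (h2 : dt a u = 0) : dt (rt a) u • rt a = u := by
  obtain ⟨a1, a2⟩ := a
  obtain ⟨u1, u2⟩ := u
  simp only [dt] at h1 h2
  simp only [dt, rt, Prod.smul_mk, smul_eq_mul]
  refine Prod.ext ?_ ?_
  · simp only
    linear_combination u1 * h1 - a1 * h2
  · simp only
    linear_combination u2 * h1 - a2 * h2

theorem main (n : ℕ) (θ P : ℕ → R2) (ℓ : ℕ → ℝ) (W : ℕ → R2) (h : Gon n θ P ℓ)
    (hW : ∀ k, W (k + n) = W k) (hp : ∀ k, dt (θ k) (W (k + 1)) = dt (θ k) (W k)) :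
    ∀ᶠ s in 𝓝 (0 : ℝ), Gon n θ (fun k => P k + s • W k)
      (fun k => ℓ k + s * dt (rt (θ k)) (W (k + 1) - W k)) := by
  have hn := h.three
  have hn0 : 0 < n := by omega
  have hW1 : ∀ k, W (k + n + 1) = W (k + 1) := fun k => by
    rw [show k + n + 1 = k + 1 + n by ring]; exact hW (k + 1)
  -- finitely many conditions
  have e1 : ∀ᶠ s in 𝓝 (0 : ℝ), ∀ k ∈ Finset.range n,
      0 < ℓ k + s * dt (rt (θ k)) (W (k + 1) - W k) := by
    rw [Filter.eventually_all_finset]
    intro k _
    have hc : Continuous fun s : ℝ => ℓ k + s * dt (rt (θ k)) (W (k + 1) - W k) := by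
      fun_prop
    have h0 : (0 : ℝ) < (fun s : ℝ => ℓ k + s * dt (rt (θ k)) (W (k + 1) - W k)) 0 := by
      simpa using h.pos k
    exact hc.continuousAt.eventually (lt_mem_nhds h0)
  have e2 : ∀ᶠ s in 𝓝 (0 : ℝ), ∀ i ∈ Finset.range n, ∀ j ∈ Finset.range (2 * n),
      ∀ k ∈ Finset.range (2 * n), i < j → j < k → k < i + n →
      0 < cr (P j + s • W j - (P i + s • W i)) (P k + s • W k - (P i + s • W i)) := by
    rw [Filter.eventually_all_finset]
    intro i _
    rw [Filter.eventually_all_finset]
    intro j _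
    rw [Filter.eventually_all_finset]
    intro k _
    by_cases hh : i < j ∧ j < k ∧ k < i + n
    · have hc : Continuous fun s : ℝ =>
          cr (P j + s • W j - (P i + s • W i)) (P k + s • W k - (P i + s • W i)) := by
        unfold cr
        fun_prop
      have h0 : (0 : ℝ) < (fun s : ℝ =>
          cr (P j + s • W j - (P i + s • W i)) (P k + s • W k - (P i + s • W i))) 0 := by
        simpa using h.conv i j k hh.1 hh.2.1 hh.2.2
      filter_upwards [hc.continuousAt.eventually (lt_mem_nhds h0)] with s hs _ _ _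
      exact hs
    · refine Filter.Eventually.of_forall fun s h1 h2 h3 => ?_
      exact absurd ⟨h1, h2, h3⟩ hh
  filter_upwards [e1, e2] with s h1 h2
  refine
    { three := hn
      perθ := h.perθ
      perP := fun k => by simp only [h.perP k, hW k]
      perl := fun k => by simp only [h.perl k, h.perθ k, hW k, hW1 k]
      unit := h.unit
      pos := ?_
      edge := ?_
      conv := ?_ }
  · intro k
    have hk := h1 (k % n) (Finset.mem_range.2 (Nat.mod_lt _ hn0))
    have hk1 : W (k % n + 1) = W (k + 1) := per_eq hW (by rw [Nat.mod_add_mod])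
    rw [per_eq h.perl (Nat.mod_mod k n), per_eq h.perθ (Nat.mod_mod k n), hk1,
      per_eq hW (Nat.mod_mod k n)] at hk
    exact hk
  · intro k
    have hu : dt (θ k) (W (k + 1) - W k) = 0 := by
      have := hp k
      simp only [dt, Prod.fst_sub, Prod.snd_sub] at this ⊢
      linarith
    have ho := orth (θ k) _ (h.unit k) hu
    change P (k + 1) + s • W (k + 1) = P k + s • W k +
      (ℓ k + s * dt (rt (θ k)) (W (k + 1) - W k)) • rt (θ k)
    rw [h.edge k, add_smul, mul_smul, ho, smul_sub]
    abel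
  · intro i j k hij hjk hk
    change 0 < cr (P j + s • W j - (P i + s • W i)) (P k + s • W k - (P i + s • W i))
    obtain ⟨q, hq⟩ : ∃ q, i = i % n + n * q := ⟨i / n, (Nat.mod_add_div i n).symm⟩
    have hi := Nat.mod_lt i hn0
    set i' := i % n with hi'
    obtain ⟨j', rfl⟩ : ∃ j', j = j' + n * q := ⟨j - n * q, by omega⟩
    obtain ⟨k', rfl⟩ : ∃ k', k = k' + n * q := ⟨k - n * q, by omega⟩
    have key := h2 i' (Finset.mem_range.2 hi) j' (Finset.mem_range.2 (by omega)) k'
      (Finset.mem_range.2 (by omega)) (by omega) (by omega) (by omega)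
    have hPW : ∀ x, P (x + n * q) + s • W (x + n * q) = P x + s • W x := by
      intro x
      rw [per_eq h.perP (Nat.add_mul_mod_self_left x n q),
        per_eq hW (Nat.add_mul_mod_self_left x n q)]
    rw [hq, hPW, hPW, hPW]
    exact key

end GT

theorem blk_GT (_ : Stmt_GN) : Stmt_GT :=
  fun n θ P ℓ W h hW hp => GT.main n θ P ℓ W h hW hp

end Pool.LBM
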